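import Pool.Agent.U20.EQ.Defs

/-!
# Filling the slots
-/

set_option autoImplicit false
set_option linter.unusedSimpArgs false

namespace Pool.Agent.U20.EQ

variable {n k : ℕ} {ed : ℕ → ℕ → Bool}

/-- The number of a slot of a checked machine. -/
def sidx (n k : ℕ) (i a : ℕ) : ℕ := if i = di n k (a / 2) then a % 2 else 2 + a % 2

/-- The label put into the slot of the machine `i` in the round `a`. -/
def asg (n k : ℕ) (ed : ℕ → ℕ → Bool) (sp jt : ℕ → ℕ) (i a : ℕ) : Lab :=
  if need n k ed (a / 2) = true ∧ (i = di n k (a / 2) ∨ i = dj n k (a / 2)) then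
    if sidx n k i a = 3 then (a / 2, 2, sp (a / 2))
    else if sidx n k i a = sp (a / 2) then (a / 2, jt (a / 2), 0)
    else (a / 2, 2, sidx n k i a)
  else (a / 2, a % 2, i)

theorem asg_fst (sp jt : ℕ → ℕ) (i a : ℕ) : (asg n k ed sp jt i a).1 = a / 2 := by
  unfold asg
  split_ifs <;> rfl

theorem asg_mem {sp jt : ℕ → ℕ} (hsp : ∀ c, sp c < 3) (hjt : ∀ c, jt c = 3 ∨ jt c = 4)
    {i a : ℕ} (hi : i < k) (ha : a < 2 * Cn n k) : asg n k ed sp jt i a ∈ labs n k ed := by
  rw [mem_labs, valid_iff]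
  have hc : a / 2 < Cn n k := by omega
  have h1 := hsp (a / 2)
  have h2 := hjt (a / 2)
  have h3 : sidx n k i a < 4 := by
    unfold sidx
    split_ifs <;> omega
  unfold asg
  split_ifs with h4 h5 h6
  · refine ⟨hc, by simp, by dsimp only; omega, Or.inr (Or.inl ⟨rfl, h4.1, h1⟩)⟩
  · refine ⟨hc, by dsimp only; omega, by dsimp only; omega,
      Or.inr (Or.inr ⟨by dsimp only; omega, h4.1, rfl⟩)⟩
  · refine ⟨hc, by simp, by dsimp only; omega, Or.inr (Or.inl ⟨rfl, h4.1, by dsimp only; omega⟩)⟩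
  · exact ⟨hc, by dsimp only; omega, by dsimp only; omega, Or.inl ⟨by dsimp only; omega, hi, h4⟩⟩

theorem asg_inj {sp jt : ℕ → ℕ} (hsp : ∀ c, sp c < 3) (hjt : ∀ c, jt c = 3 ∨ jt c = 4)
    {i a i' a' : ℕ} (h : asg n k ed sp jt i a = asg n k ed sp jt i' a') : i = i' ∧ a = a' := by
  have h0 : a / 2 = a' / 2 := by rw [← asg_fst (n := n) (k := k) (ed := ed) sp jt i a, h, asg_fst]
  have hb : a % 2 = a' % 2 → a = a' := by omega
  have h1 := hsp (a / 2)
  have h2 := hjt (a / 2)
  have key : sidx n k i a = sidx n k i' a' → need n k ed (a / 2) = true →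
      (i = di n k (a / 2) ∨ i = dj n k (a / 2)) → (i' = di n k (a / 2) ∨ i' = dj n k (a / 2)) →
      i = i' ∧ a = a' := by
    intro h3 h4 h5 h6
    have h7 := (need_iff.1 h4).1
    unfold sidx at h3
    rw [← h0] at h3
    split_ifs at h3 with h8 h9 h9
    · exact ⟨h8.trans h9.symm, hb (by omega)⟩
    · omega
    · omega
    · refine ⟨?_, hb (by omega)⟩
      rcases h5 with h5 | h5
      · exact absurd h5 h8
      · rcases h6 with h6 | h6
        · exact absurd h6 h9
        · exact h5.trans h6.symm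
  unfold asg at h
  rw [← h0] at h
  by_cases c1 : need n k ed (a / 2) = true ∧ (i = di n k (a / 2) ∨ i = dj n k (a / 2)) <;>
  by_cases c2 : need n k ed (a / 2) = true ∧ (i' = di n k (a / 2) ∨ i' = dj n k (a / 2))
  · rw [if_pos c1, if_pos c2] at h
    apply key _ c1.1 c1.2 c2.2
    split_ifs at h with h3 h4 h4 h4 h5 h5 h5 h5 <;>
    simp only [Prod.mk.injEq, true_and, and_true, and_false] at h <;> omega
  · rw [if_pos c1, if_neg c2] at h
    split_ifs at h with h3 h4 <;>
    simp only [Prod.mk.injEq, true_and, and_true] at h <;> omega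
  · rw [if_neg c1, if_pos c2] at h
    split_ifs at h with h3 h4 <;>
    simp only [Prod.mk.injEq, true_and, and_true] at h <;> omega
  · rw [if_neg c1, if_neg c2] at h
    simp only [Prod.mk.injEq, true_and] at h
    exact ⟨h.2, hb h.1⟩

/-- The positions of the jobs that are put into slots. -/
theorem card_slots {sp jt : ℕ → ℕ} (hsp : ∀ c, sp c < 3) (hjt : ∀ c, jt c = 3 ∨ jt c = 4)
    (O : Finset (Fin (labs n k ed).length))
    (hO : ∀ q : Fin (labs n k ed).length, (∃ i a, i < k ∧ a < 2 * Cn n k ∧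
      asg n k ed sp jt i a = (labs n k ed)[(q : ℕ)]) → q ∈ O) : k * (2 * Cn n k) ≤ O.card := by
  classical
  have h1 : ∀ x : ℕ × ℕ, ∃ q : ℕ, x.1 < k → x.2 < 2 * Cn n k →
      ∃ h : q < (labs n k ed).length, (labs n k ed)[q] = asg n k ed sp jt x.1 x.2 := by
    intro x
    by_cases h : x.1 < k ∧ x.2 < 2 * Cn n k
    · obtain ⟨q, hq, h2⟩ := List.getElem_of_mem (asg_mem (ed := ed) hsp hjt h.1 h.2)
      exact ⟨q, fun _ _ => ⟨hq, h2⟩⟩
    · exact ⟨0, fun h2 h3 => absurd ⟨h2, h3⟩ h⟩
  choose f hf using h1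
  have h2 : (Finset.range k ×ˢ Finset.range (2 * Cn n k)).card ≤ (O.map Fin.valEmbedding).card := by
    refine Finset.card_le_card_of_injOn f ?_ ?_
    · intro x hx
      simp only [Finset.coe_product, Finset.coe_range, Set.mem_prod, Set.mem_Iio] at hx
      obtain ⟨h3, h4⟩ := hf x hx.1 hx.2
      simp only [Finset.coe_map, Set.mem_image, Finset.mem_coe]
      exact ⟨⟨f x, h3⟩, hO _ ⟨x.1, x.2, hx.1, hx.2, h4.symm⟩, rfl⟩
    · intro x hx y hy hxy
      simp only [Finset.coe_product, Finset.coe_range, Set.mem_prod, Set.mem_Iio] at hx hy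
      obtain ⟨h3, h4⟩ := hf x hx.1 hx.2
      obtain ⟨h5, h6⟩ := hf y hy.1 hy.2
      have h7 : asg n k ed sp jt x.1 x.2 = asg n k ed sp jt y.1 y.2 := by
        rw [← h4, ← h6]
        simp only [hxy]
      have h8 := asg_inj hsp hjt h7
      exact Prod.ext h8.1 h8.2
  rw [Finset.card_product, Finset.card_range, Finset.card_range, Finset.card_map] at h2
  exact h2

theorem length_labs : k * (2 * Cn n k) ≤ (labs n k ed).length := by
  have h := card_slots (n := n) (k := k) (ed := ed) (sp := fun _ => 0) (jt := fun _ => 3)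
    (fun _ => by norm_num) (fun _ => Or.inl rfl) Finset.univ (fun q _ => Finset.mem_univ q)
  simpa using h

end Pool.Agent.U20.EQ
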