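import Pool.Agent.U20.EQ.Asg

/-!
# A clique gives a schedule
-/

set_option autoImplicit false
set_option linter.unusedSimpArgs false

namespace Pool.Agent.U20.EQ

variable {n k : ℕ} {ed : ℕ → ℕ → Bool}

/-- Facts about the checked machines. -/
theorem need_facts (hn : 0 < n) {c : ℕ} (h : need n k ed c = true) :
    di n k c * n + n ≤ dj n k c * n ∧ dj n k c * n + n ≤ k * n ∧ du n c < n ∧ dw n c < n ∧
      di n k c < k ∧ dj n k c < k := by
  have h1 := (need_iff.1 h).1
  have hk : 0 < k := by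
    rcases Nat.eq_zero_or_pos k with hk | hk
    · exfalso
      subst hk
      have h2 := (need_iff.1 h).2.2
      simp [Cn, Qn] at h2
    · exact hk
  have h2 : dj n k c < k := Nat.mod_lt _ hk
  refine ⟨?_, ?_, Nat.mod_lt _ hn, Nat.mod_lt _ hn, h1.trans h2, h2⟩
  · calc di n k c * n + n = (di n k c + 1) * n := by ring
      _ ≤ dj n k c * n := Nat.mul_le_mul_right _ h1
  · calc dj n k c * n + n = (dj n k c + 1) * n := by ring
      _ ≤ k * n := Nat.mul_le_mul_right _ h2

theorem lo_le (hn : 0 < n) {x : Lab} (hx : x ∈ labs n k ed) :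
    lo n k x ≤ (2 * Cn n k + 1) * (k * n) := by
  obtain ⟨c, q, l⟩ := x
  rw [mem_labs, valid_iff] at hx
  dsimp only at hx
  obtain ⟨hc, hq, -, hv⟩ := hx
  have h1 : 2 * c * (k * n) + 2 * (k * n) ≤ 2 * Cn n k * (k * n) := by
    calc 2 * c * (k * n) + 2 * (k * n) = (2 * (c + 1)) * (k * n) := by ring
      _ ≤ 2 * Cn n k * (k * n) := Nat.mul_le_mul_right _ (by omega)
  have e1 : (2 * Cn n k + 1) * (k * n) = 2 * Cn n k * (k * n) + k * n := by ring
  have e2 : (2 * c + 1) * (k * n) = 2 * c * (k * n) + k * n := by ring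
  unfold lo
  dsimp only
  rw [e1, e2]
  rcases hv with ⟨h2, h3, -⟩ | ⟨h2, h3, -⟩ | ⟨h2, h3, -⟩
  · have h4 : l * n ≤ k * n := Nat.mul_le_mul_right _ h3.le
    split_ifs <;> omega
  · have h5 := need_facts hn h3
    split_ifs <;> omega
  · have h5 := need_facts hn h3
    split_ifs <;> omega

section
variable (n k) (x : ℕ → ℕ)

/-- The special slot. -/
def spc (c : ℕ) : ℕ := if du n c < x (di n k c) then 0 else if x (di n k c) < du n c then 1 else 2
/-- The kind of the job in it. -/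
def jtc (c : ℕ) : ℕ :=
  if du n c < x (di n k c) then 3 else if x (di n k c) < du n c then 4 else
    if x (dj n k c) < dw n c then 3 else 4

theorem spc_lt (c : ℕ) : spc n k x c < 3 := by
  unfold spc
  split_ifs <;> norm_num

theorem jtc_or (c : ℕ) : jtc n k x c = 3 ∨ jtc n k x c = 4 := by
  unfold jtc
  split_ifs <;> simp

end

theorem lo0 (c l : ℕ) : lo n k (c, 0, l) = 2 * c * (k * n) + l * n := rfl
theorem lo1 (c l : ℕ) : lo n k (c, 1, l) = 2 * c * (k * n) + k * n + l * n := by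
  change (2 * c + 1) * (k * n) + l * n = _
  ring
theorem lo2 (c l : ℕ) : lo n k (c, 2, l) = 2 * c * (k * n) + di n k c * n := rfl
theorem lo3 (c l : ℕ) : lo n k (c, 3, l) = 2 * c * (k * n) + di n k c * n + du n c + 1 := rfl
theorem lo4 (c l : ℕ) : lo n k (c, 4, l) = 2 * c * (k * n) + dj n k c * n + dw n c + 1 := rfl
theorem hi0 (c l : ℕ) : hi n k (c, 0, l) = 2 * c * (k * n) + l * n + n := rfl
theorem hi1 (c l : ℕ) : hi n k (c, 1, l) = 2 * c * (k * n) + k * n + l * n + n := by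
  change (2 * c + 1) * (k * n) + l * n + n = _
  ring
theorem hi2 (c l : ℕ) : hi n k (c, 2, l) = 2 * c * (k * n) + k * n + dj n k c * n + n := by
  change (2 * c + 1) * (k * n) + dj n k c * n + n = _
  ring
theorem hi3 (c l : ℕ) : hi n k (c, 3, l) = 2 * c * (k * n) + dj n k c * n + dw n c := rfl
theorem hi4 (c l : ℕ) : hi n k (c, 4, l) = 2 * c * (k * n) + k * n + di n k c * n + du n c := by
  change (2 * c + 1) * (k * n) + di n k c * n + du n c = _
  ring

/-- The slots are in the windows of their jobs. -/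
theorem window (hn : 0 < n) {x : ℕ → ℕ} (hx : ∀ i < k, x i < n)
    (hed : ∀ i j, i < k → j < k → i ≠ j → ed (x i) (x j) = true) {i a : ℕ} (hi : i < k) :
    lo n k (asg n k ed (spc n k x) (jtc n k x) i a) ≤ a * (k * n) + i * n + x i ∧
      a * (k * n) + i * n + x i < EQ.hi n k (asg n k ed (spc n k x) (jtc n k x) i a) := by
  obtain ⟨c, b, hb, rfl⟩ : ∃ c b, b < 2 ∧ a = 2 * c + b := ⟨a / 2, a % 2, by omega, by omega⟩
  have ea : (2 * c + b) / 2 = c := by omega
  have eb : (2 * c + b) % 2 = b := by omega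
  have hxi := hx i hi
  have e2 : (2 * c + 1) * (k * n) = 2 * c * (k * n) + k * n := by ring
  have e0 : (2 * c + 0) * (k * n) = 2 * c * (k * n) := by ring
  unfold asg sidx
  rw [ea, eb]
  by_cases h : need n k ed c = true ∧ (i = di n k c ∨ i = dj n k c)
  · rw [if_pos h]
    obtain ⟨f1, f2, f3, f4, f5, f6⟩ := need_facts hn h.1
    obtain ⟨g1, g2, -⟩ := need_iff.1 h.1
    have hxd := hx _ f5
    have hxe := hx _ f6
    have hne : ¬ (x (di n k c) = du n c ∧ x (dj n k c) = dw n c) := by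
      rintro ⟨h1, h2⟩
      have := hed _ _ f5 f6 g1.ne
      rw [h1, h2, g2] at this
      exact absurd this (by decide)
    have hs : (spc n k x c = 0 ∧ jtc n k x c = 3 ∧ du n c < x (di n k c)) ∨
        (spc n k x c = 1 ∧ jtc n k x c = 4 ∧ x (di n k c) < du n c) ∨
        (spc n k x c = 2 ∧ jtc n k x c = 3 ∧ x (dj n k c) < dw n c) ∨
        (spc n k x c = 2 ∧ jtc n k x c = 4 ∧ dw n c < x (dj n k c)) := by
      unfold spc jtc
      rcases lt_trichotomy (x (di n k c)) (du n c) with h1 | h1 | h1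
      · rw [if_neg (by omega), if_pos h1, if_neg (by omega), if_pos h1]
        exact Or.inr (Or.inl ⟨rfl, rfl, h1⟩)
      · rw [if_neg (by omega), if_neg (by omega), if_neg (by omega), if_neg (by omega)]
        rcases lt_trichotomy (x (dj n k c)) (dw n c) with h2 | h2 | h2
        · rw [if_pos h2]
          exact Or.inr (Or.inr (Or.inl ⟨rfl, rfl, h2⟩))
        · exact absurd ⟨h1, h2⟩ hne
        · rw [if_neg (by omega)]
          exact Or.inr (Or.inr (Or.inr ⟨rfl, rfl, h2⟩))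
      · rw [if_pos h1, if_pos h1]
        exact Or.inl ⟨rfl, rfl, h1⟩
    rcases h.2 with h7 | h7
    · rw [if_pos h7]
      rw [h7]
      obtain rfl | rfl : b = 0 ∨ b = 1 := by omega
      · rcases hs with ⟨s1, s2, s3⟩ | ⟨s1, s2, s3⟩ | ⟨s1, s2, s3⟩ | ⟨s1, s2, s3⟩ <;>
          simp only [s1, s2, e0, lo2, lo3, lo4, hi2, hi3, hi4, if_pos, if_neg, reduceIte,
            OfNat.zero_ne_ofNat, zero_ne_one] <;> omega
      · rcases hs with ⟨s1, s2, s3⟩ | ⟨s1, s2, s3⟩ | ⟨s1, s2, s3⟩ | ⟨s1, s2, s3⟩ <;>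
          simp only [s1, s2, e2, lo2, lo3, lo4, hi2, hi3, hi4, if_pos, if_neg, reduceIte,
            OfNat.one_ne_ofNat, one_ne_zero] <;> omega
    · have hji : ¬ dj n k c = di n k c := g1.ne'
      rw [h7]
      simp only [if_neg hji]
      obtain rfl | rfl : b = 0 ∨ b = 1 := by omega
      · rcases hs with ⟨s1, s2, s3⟩ | ⟨s1, s2, s3⟩ | ⟨s1, s2, s3⟩ | ⟨s1, s2, s3⟩ <;>
          simp only [s1, s2, e0, lo2, lo3, lo4, hi2, hi3, hi4, if_pos, if_neg, reduceIte,
            add_zero, Nat.reduceEqDiff, OfNat.ofNat_ne_zero, OfNat.ofNat_ne_one] <;> omega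
      · rcases hs with ⟨s1, s2, s3⟩ | ⟨s1, s2, s3⟩ | ⟨s1, s2, s3⟩ | ⟨s1, s2, s3⟩ <;>
          simp only [s1, s2, e2, lo2, lo3, lo4, hi2, hi3, hi4, if_pos, if_neg, reduceIte,
            Nat.reduceAdd] <;> omega
  · rw [if_neg h]
    obtain rfl | rfl : b = 0 ∨ b = 1 := by omega
    · rw [lo0, hi0, e0]
      omega
    · rw [lo1, hi1, e2]
      omega

end Pool.Agent.U20.EQ
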