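import Pool.Agent.U20.EQ.Comp

/-!
# A clique gives a schedule, continued
-/

set_option autoImplicit false

namespace Pool.Agent.U20.EQ

variable {n k : ℕ} {ed : ℕ → ℕ → Bool}

theorem jobs_length : (jobs n k ed).length = (labs n k ed).length := by
  unfold jobs
  rw [List.length_map]

theorem lt_labs (q : Fin (jobs n k ed).length) : (q : ℕ) < (labs n k ed).length :=
  q.2.trans_eq jobs_length

/-- The label of a job. -/
def labOf (q : Fin (jobs n k ed).length) : Lab := (labs n k ed)[(q : ℕ)]'(lt_labs q)

theorem labOf_mem (q : Fin (jobs n k ed).length) : labOf q ∈ labs n k ed := List.getElem_mem _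

theorem labOf_inj {q q' : Fin (jobs n k ed).length} (h : labOf q = labOf q') : q = q' :=
  Fin.ext ((labs_nodup.getElem_inj_iff).1 h)

theorem jobs_get (q : Fin (jobs n k ed).length) : (jobs n k ed)[q] = job n k (labOf q) := by
  rw [Fin.getElem_fin]
  exact List.getElem_map _

/-- The number of tardy jobs. -/
theorem tardy_sum (hP : 0 < k * n) (S : Fin (jobs n k ed).length → ℕ) :
    (∑ j, if (jobs n k ed)[j].2.1 < S j + k * n then (jobs n k ed)[j].2.2 else 0) =
      (Finset.univ.filter fun q : Fin (jobs n k ed).length => hi n k (labOf q) ≤ S q).card := by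
  classical
  rw [Finset.card_filter]
  refine Finset.sum_congr rfl fun q _ => ?_
  rw [jobs_get]
  unfold job
  dsimp only
  by_cases h : hi n k (labOf q) ≤ S q
  · rw [if_pos h, if_pos (by omega)]
  · rw [if_neg h, if_neg (by omega)]

open Classical in
theorem complete (hn : 0 < n) (hk : 0 < k) {x : ℕ → ℕ} (hx : ∀ i < k, x i < n)
    (hed : ∀ i j, i < k → j < k → i ≠ j → ed (x i) (x j) = true) : NTardy (inst n k ed) := by
  have hP : 0 < k * n := Nat.mul_pos hk hn
  unfold NTardy inst
  dsimp only
  let A : ℕ → ℕ → Lab := asg n k ed (spc n k x) (jtc n k x)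
  let E : Fin (jobs n k ed).length → Prop := fun q =>
    ∃ w : ℕ × ℕ, w.1 < k ∧ w.2 < 2 * Cn n k ∧ A w.1 w.2 = labOf q
  let tm : ℕ × ℕ → ℕ := fun w => w.2 * (k * n) + w.1 * n + x w.1
  let σ : Fin (jobs n k ed).length → Fin k := fun q =>
    if h : E q then ⟨h.choose.1, h.choose_spec.1⟩ else ⟨0, hk⟩
  let S : Fin (jobs n k ed).length → ℕ := fun q =>
    if h : E q then tm h.choose else (2 * Cn n k + 1 + q) * (k * n)
  have hin : ∀ i < k, i * n + x i < k * n := by
    intro i hi
    have h1 := hx i hi
    have h2 : (i + 1) * n ≤ k * n := Nat.mul_le_mul_right _ hi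
    have h3 : (i + 1) * n = i * n + n := by ring
    omega
  have htm : ∀ w : ℕ × ℕ, w.1 < k → w.2 < 2 * Cn n k →
      tm w + k * n ≤ (2 * Cn n k + 1) * (k * n) := by
    intro w h1 h2
    have h3 := hin w.1 h1
    have h4 : (w.2 + 1) * (k * n) ≤ 2 * Cn n k * (k * n) := Nat.mul_le_mul_right _ h2
    have h5 : (w.2 + 1) * (k * n) = w.2 * (k * n) + k * n := by ring
    have h6 : (2 * Cn n k + 1) * (k * n) = 2 * Cn n k * (k * n) + k * n := by ring
    change w.2 * (k * n) + w.1 * n + x w.1 + k * n ≤ _
    omega
  have hlate : ∀ q : Fin (jobs n k ed).length,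
      (2 * Cn n k + 1) * (k * n) ≤ (2 * Cn n k + 1 + q) * (k * n) :=
    fun q => Nat.mul_le_mul_right _ (by omega)
  refine ⟨σ, S, ?_, ?_, ?_⟩
  · intro q
    rw [jobs_get]
    change lo n k (labOf q) ≤ S q
    by_cases h : E q
    · have h1 := h.choose_spec
      have h2 : S q = tm h.choose := dif_pos h
      rw [h2]
      exact (le_of_eq (congrArg (lo n k) h1.2.2).symm).trans (window hn hx hed h1.1).1
    · have h2 : S q = (2 * Cn n k + 1 + q) * (k * n) := dif_neg h
      rw [h2]
      exact (lo_le hn (labOf_mem q)).trans (hlate q)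
  · intro q q' hne hσ
    by_cases h : E q <;> by_cases h' : E q'
    · have e1 : S q = tm h.choose := dif_pos h
      have e2 : S q' = tm h'.choose := dif_pos h'
      have e3 : σ q = ⟨h.choose.1, h.choose_spec.1⟩ := dif_pos h
      have e4 : σ q' = ⟨h'.choose.1, h'.choose_spec.1⟩ := dif_pos h'
      rw [e3, e4] at hσ
      have hσ' : h.choose.1 = h'.choose.1 := by simpa using congrArg Fin.val hσ
      have s1 := h.choose_spec
      have s2 := h'.choose_spec
      have hne2 : h.choose.2 ≠ h'.choose.2 := by
        intro h3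
        apply hne
        apply labOf_inj
        rw [← s1.2.2, ← s2.2.2, hσ', h3]
      rw [e1, e2]
      change h.choose.2 * (k * n) + h.choose.1 * n + x h.choose.1 + k * n ≤
        h'.choose.2 * (k * n) + h'.choose.1 * n + x h'.choose.1 ∨
        h'.choose.2 * (k * n) + h'.choose.1 * n + x h'.choose.1 + k * n ≤
        h.choose.2 * (k * n) + h.choose.1 * n + x h.choose.1
      rw [hσ']
      rcases Nat.lt_or_gt_of_ne hne2 with h4 | h4
      · left
        have h5 : (h.choose.2 + 1) * (k * n) ≤ h'.choose.2 * (k * n) := Nat.mul_le_mul_right _ h4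
        have h6 : (h.choose.2 + 1) * (k * n) = h.choose.2 * (k * n) + k * n := by ring
        omega
      · right
        have h5 : (h'.choose.2 + 1) * (k * n) ≤ h.choose.2 * (k * n) := Nat.mul_le_mul_right _ h4
        have h6 : (h'.choose.2 + 1) * (k * n) = h'.choose.2 * (k * n) + k * n := by ring
        omega
    · have e1 : S q = tm h.choose := dif_pos h
      have e2 : S q' = (2 * Cn n k + 1 + q') * (k * n) := dif_neg h'
      left
      rw [e1, e2]
      exact (htm _ h.choose_spec.1 h.choose_spec.2.1).trans (hlate q')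
    · have e1 : S q' = tm h'.choose := dif_pos h'
      have e2 : S q = (2 * Cn n k + 1 + q) * (k * n) := dif_neg h
      right
      rw [e1, e2]
      exact (htm _ h'.choose_spec.1 h'.choose_spec.2.1).trans (hlate q)
    · have e1 : S q = (2 * Cn n k + 1 + q) * (k * n) := dif_neg h
      have e2 : S q' = (2 * Cn n k + 1 + q') * (k * n) := dif_neg h'
      rw [e1, e2]
      have hne' : (q : ℕ) ≠ q' := fun h3 => hne (Fin.ext h3)
      rcases Nat.lt_or_gt_of_ne hne' with h4 | h4
      · left
        calc (2 * Cn n k + 1 + q) * (k * n) + k * n = (2 * Cn n k + 1 + q + 1) * (k * n) := by ring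
          _ ≤ _ := Nat.mul_le_mul_right _ (by omega)
      · right
        calc (2 * Cn n k + 1 + q') * (k * n) + k * n = (2 * Cn n k + 1 + q' + 1) * (k * n) := by
              ring
          _ ≤ _ := Nat.mul_le_mul_right _ (by omega)
  · rw [tardy_sum hP]
    have h1 := card_slots (n := n) (k := k) (ed := ed) (spc_lt n k x) (jtc_or n k x)
      (Finset.univ.filter fun q : Fin (labs n k ed).length =>
        ¬ hi n k ((labs n k ed)[(q : ℕ)]) ≤ S (Fin.cast jobs_length.symm q)) (by
        rintro q ⟨i, a, h2, h3, h4⟩
        rw [Finset.mem_filter]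
        refine ⟨Finset.mem_univ _, ?_⟩
        let q' : Fin (jobs n k ed).length := Fin.cast jobs_length.symm q
        have h5 : E q' := ⟨(i, a), h2, h3, h4⟩
        have h6 := h5.choose_spec
        have e1 : S q' = tm h5.choose := dif_pos h5
        change ¬ hi n k (labOf q') ≤ S q'
        rw [e1, not_le]
        exact lt_of_lt_of_eq (window hn hx hed h6.1).2 (congrArg (hi n k) h6.2.2))
    have h2 := Finset.card_filter_add_card_filter_not (s := (Finset.univ : Finset (Fin (labs n k ed).length)))
      (fun q => hi n k ((labs n k ed)[(q : ℕ)]) ≤ S (Fin.cast jobs_length.symm q))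
    rw [Finset.card_univ, Fintype.card_fin] at h2
    have h3 : (Finset.univ.filter fun q : Fin (jobs n k ed).length =>
        hi n k (labOf q) ≤ S q).card =
        (Finset.univ.filter fun q : Fin (labs n k ed).length =>
          hi n k ((labs n k ed)[(q : ℕ)]) ≤ S (Fin.cast jobs_length.symm q)).card := by
      refine Finset.card_bij (fun q _ => Fin.cast jobs_length q) ?_ ?_ ?_
      · intro q hq
        rw [Finset.mem_filter] at hq ⊢
        exact ⟨Finset.mem_univ _, hq.2⟩
      · intro q _ q' _ h
        exact Fin.ext (by simpa using congrArg Fin.val h)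
      · intro q hq
        rw [Finset.mem_filter] at hq
        exact ⟨Fin.cast jobs_length.symm q, by
          rw [Finset.mem_filter]
          exact ⟨Finset.mem_univ _, hq.2⟩, rfl⟩
    rw [h3]
    omega

end Pool.Agent.U20.EQ
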