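import Mathlib

/-!
# Equal-length jobs on identical parallel machines with release dates and due dates
-/

set_option autoImplicit false

namespace Pool.Agent.U20.EQ

/-- An instance: the number `m` of machines, the common processing time `p`, the list of the jobs
with their release dates, due dates and weights, and the bound. -/
abbrev WInst : Type := ℕ × ℕ × List (ℕ × ℕ × ℕ) × ℕ

/-- The job `j` is processed on the machine `σ j` during `[S j, S j + p)`; no job starts before its
release date, and jobs on the same machine do not overlap. -/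
def IsSchedule (m p : ℕ) (J : List (ℕ × ℕ × ℕ)) (σ : Fin J.length → Fin m)
    (S : Fin J.length → ℝ) : Prop :=
  (∀ j, (J[j].1 : ℝ) ≤ S j) ∧
    ∀ i j, i ≠ j → σ i = σ j → S i + p ≤ S j ∨ S j + p ≤ S i

open Classical in
/-- The total weight of the tardy jobs. -/
noncomputable def tardyWeight (p : ℕ) (J : List (ℕ × ℕ × ℕ)) (S : Fin J.length → ℝ) : ℕ :=
  ∑ j, if (J[j].2.1 : ℝ) < S j + p then J[j].2.2 else 0

/-- `P|r_j, p_j = p|∑ w_j U_j`, decision version. -/
def WTardy (I : WInst) : Prop :=
  ∃ (σ : Fin I.2.2.1.length → Fin I.1) (S : Fin I.2.2.1.length → ℝ),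
    IsSchedule I.1 I.2.1 I.2.2.1 σ S ∧ tardyWeight I.2.1 I.2.2.1 S ≤ I.2.2.2

/-- The same with integral start times. -/
def NTardy (I : WInst) : Prop :=
  ∃ (σ : Fin I.2.2.1.length → Fin I.1) (S : Fin I.2.2.1.length → ℕ),
    (∀ j, I.2.2.1[j].1 ≤ S j) ∧
    (∀ i j, i ≠ j → σ i = σ j → S i + I.2.1 ≤ S j ∨ S j + I.2.1 ≤ S i) ∧
    (∑ j, if I.2.2.1[j].2.1 < S j + I.2.1 then I.2.2.1[j].2.2 else 0) ≤ I.2.2.2

/-- Rounding down the start times. -/
theorem wTardy_iff (I : WInst) : WTardy I ↔ NTardy I := by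
  classical
  obtain ⟨m, p, J, b⟩ := I
  unfold WTardy NTardy IsSchedule tardyWeight
  dsimp only
  constructor
  · rintro ⟨σ, S, ⟨h1, h2⟩, h3⟩
    have h0 : ∀ j, 0 ≤ S j := fun j => le_trans (Nat.cast_nonneg _) (h1 j)
    refine ⟨σ, fun j => ⌊S j⌋₊, fun j => Nat.le_floor (h1 j), ?_, le_trans ?_ h3⟩
    · have key : ∀ i j, S i + p ≤ S j → ⌊S i⌋₊ + p ≤ ⌊S j⌋₊ := by
        intro i j h
        rw [← Nat.floor_add_natCast (h0 i)]
        exact Nat.floor_le_floor h
      intro i j hij hσ
      rcases h2 i j hij hσ with h | h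
      · exact Or.inl (key i j h)
      · exact Or.inr (key j i h)
    · refine Finset.sum_le_sum fun j _ => ?_
      split_ifs with h4 h5
      · exact le_rfl
      · exfalso
        apply h5
        have h6 : ((J[j].2.1 : ℕ) : ℝ) < ((⌊S j⌋₊ + p : ℕ) : ℝ) := by exact_mod_cast h4
        push_cast at h6
        exact lt_of_lt_of_le h6 (by
          have := Nat.floor_le (h0 j)
          linarith)
      · exact Nat.zero_le _
      · exact le_rfl
  · rintro ⟨σ, S, h1, h2, h3⟩
    have key : ∀ i j, S i + p ≤ S j → (S i : ℝ) + p ≤ S j := by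
      intro i j h
      have h' : ((S i + p : ℕ) : ℝ) ≤ (S j : ℝ) := Nat.cast_le.2 h
      push_cast at h'
      exact h'
    refine ⟨σ, fun j => (S j : ℝ), ⟨fun j => Nat.cast_le.2 (h1 j), fun i j hij hσ => ?_⟩,
      le_trans ?_ h3⟩
    · rcases h2 i j hij hσ with h | h
      · exact Or.inl (key i j h)
      · exact Or.inr (key j i h)
    · refine Finset.sum_le_sum fun j _ => ?_
      have e : ((J[j].2.1 : ℕ) : ℝ) < (S j : ℝ) + p ↔ J[j].2.1 < S j + p := by
        constructor
        · intro h; exact_mod_cast h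
        · intro h; exact_mod_cast h
      by_cases h : J[j].2.1 < S j + p
      · rw [if_pos h, if_pos (e.2 h)]
      · rw [if_neg h, if_neg (fun h' => h (e.1 h'))]

/-! ### The labels of the jobs -/

abbrev Lab : Type := ℕ × ℕ × ℕ

section
variable (n k : ℕ) (ed : ℕ → ℕ → Bool)

/-- The number of blocks in a superblock. -/
def Qn : ℕ := n * n * k * k
/-- The number of blocks. -/
def Cn : ℕ := (k * n + 1) * Qn n k

def dw (c : ℕ) : ℕ := c % n
def du (c : ℕ) : ℕ := c / n % n
def dj (c : ℕ) : ℕ := c / n / n % k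
def di (c : ℕ) : ℕ := c / n / n / k % k

/-- Does the block `c` check something? -/
def need (c : ℕ) : Bool :=
  decide (di n k c < dj n k c) && !(ed (du n c) (dw n c)) && decide (c + 1 < Cn n k)

/-- The labels that are used. -/
def valid (x : Lab) : Bool :=
  if x.2.1 < 2 then
    decide (x.2.2 < k) && !(need n k ed x.1 &&
      (decide (x.2.2 = di n k x.1) || decide (x.2.2 = dj n k x.1)))
  else need n k ed x.1 && (if x.2.1 = 2 then decide (x.2.2 < 3) else decide (x.2.2 = 0))

/-- The list of the labels of the jobs. -/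
def labs : List Lab :=
  (List.range (Cn n k) ×ˢ (List.range 5 ×ˢ List.range (k + 3))).filter (valid n k ed)

/-- The release date. -/
def lo (x : Lab) : ℕ :=
  if x.2.1 = 0 then 2 * x.1 * (k * n) + x.2.2 * n
  else if x.2.1 = 1 then (2 * x.1 + 1) * (k * n) + x.2.2 * n
  else if x.2.1 = 2 then 2 * x.1 * (k * n) + di n k x.1 * n
  else if x.2.1 = 3 then 2 * x.1 * (k * n) + di n k x.1 * n + du n x.1 + 1
  else 2 * x.1 * (k * n) + dj n k x.1 * n + dw n x.1 + 1

/-- A job is on time if it starts before this time. -/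
def hi (x : Lab) : ℕ :=
  if x.2.1 = 0 then 2 * x.1 * (k * n) + x.2.2 * n + n
  else if x.2.1 = 1 then (2 * x.1 + 1) * (k * n) + x.2.2 * n + n
  else if x.2.1 = 2 then (2 * x.1 + 1) * (k * n) + dj n k x.1 * n + n
  else if x.2.1 = 3 then 2 * x.1 * (k * n) + dj n k x.1 * n + dw n x.1
  else (2 * x.1 + 1) * (k * n) + di n k x.1 * n + du n x.1

def job (x : Lab) : ℕ × ℕ × ℕ := (lo n k x, hi n k x + k * n - 1, 1)

def jobs : List (ℕ × ℕ × ℕ) := (labs n k ed).map (job n k)

/-- The instance. -/
def inst : WInst := (k, k * n, jobs n k ed, (labs n k ed).length - k * (2 * Cn n k))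

variable {n k ed}

theorem mem_labs {x : Lab} : x ∈ labs n k ed ↔
    x.1 < Cn n k ∧ x.2.1 < 5 ∧ x.2.2 < k + 3 ∧ valid n k ed x = true := by
  obtain ⟨c, q, l⟩ := x
  unfold labs
  rw [List.mem_filter, List.mem_product, List.mem_product]
  simp only [List.mem_range]
  tauto

theorem labs_nodup : (labs n k ed).Nodup := by
  unfold labs
  exact ((List.nodup_range).product ((List.nodup_range).product List.nodup_range)).filter _

theorem need_iff {c : ℕ} : need n k ed c = true ↔
    di n k c < dj n k c ∧ ed (du n c) (dw n c) = false ∧ c + 1 < Cn n k := by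
  unfold need
  simp only [Bool.and_eq_true, decide_eq_true_eq, Bool.not_eq_true', and_assoc]

theorem valid_iff {x : Lab} : valid n k ed x = true ↔
    (x.2.1 < 2 ∧ x.2.2 < k ∧ ¬ (need n k ed x.1 = true ∧ (x.2.2 = di n k x.1 ∨
      x.2.2 = dj n k x.1))) ∨
    (x.2.1 = 2 ∧ need n k ed x.1 = true ∧ x.2.2 < 3) ∨
    (2 < x.2.1 ∧ need n k ed x.1 = true ∧ x.2.2 = 0) := by
  obtain ⟨c, q, l⟩ := x
  unfold valid
  dsimp only
  by_cases h : q < 2
  · rw [if_pos h]
    simp only [Bool.and_eq_true, decide_eq_true_eq, Bool.not_eq_true', h, true_and,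
      Bool.and_eq_false_iff, Bool.or_eq_false_iff, decide_eq_false_iff_not]
    have e1 : ¬ q = 2 := by omega
    have e2 : ¬ 2 < q := by omega
    simp only [e1, e2, false_and, or_false]
    cases need n k ed c <;> simp
  · rw [if_neg h]
    simp only [h, false_and, false_or]
    by_cases h2 : q = 2
    · subst h2
      simp
    · have e2 : 2 < q := by omega
      simp [h2, e2]

end

end Pool.Agent.U20.EQ
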