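import Pool.Agent.U20.EQ.Sound2
import Pool.Agent.H633R2.Fpt
import Pool.Agent.H671R2.PolyAuto
import Pool.Agent.H634R2.Clique

/-!
# The reduction is computable in polynomial time
-/

set_option autoImplicit false

namespace Pool.Agent.U20.EQ

open Pool.Agent.NPC Pool.Agent.H633R2

/-- An instance of the unweighted problem: `m`, `p`, the jobs with release dates and due dates,
and the bound. -/
abbrev UInst : Type := ℕ × ℕ × List (ℕ × ℕ) × ℕ

/-- The same instance with all weights equal to `1`. -/
def weigh (I : UInst) : WInst := (I.1, I.2.1, I.2.2.1.map (fun x => (x.1, x.2, 1)), I.2.2.2)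

/-- `P|r_j, p_j = p|∑ U_j`, decision version. -/
def Tardy (I : UInst) : Prop := WTardy (weigh I)

/-- The unweighted instance. -/
def uinst (n k : ℕ) (ed : ℕ → ℕ → Bool) : UInst :=
  (k, k * n, (labs n k ed).map (fun x => (lo n k x, hi n k x + k * n - 1)),
    (labs n k ed).length - k * (2 * Cn n k))

theorem weigh_uinst (n k : ℕ) (ed : ℕ → ℕ → Bool) : weigh (uinst n k ed) = inst n k ed := by
  unfold weigh uinst inst jobs
  dsimp only
  rw [List.map_map]
  rfl

/-- `k` pairwise adjacent vertices, as a function. -/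
def Cl (n k : ℕ) (ed : ℕ → ℕ → Bool) : Prop :=
  ∃ x : ℕ → ℕ, (∀ i < k, x i < n) ∧ ∀ i j, i < k → j < k → i ≠ j → ed (x i) (x j) = true

theorem tardy_uinst {n k : ℕ} (hn : 0 < n) (hk : 0 < k) {ed : ℕ → ℕ → Bool}
    (hsymm : ∀ u v, ed u v = ed v u) : Cl n k ed ↔ Tardy (uinst n k ed) := by
  unfold Tardy
  rw [weigh_uinst, wTardy_iff]
  constructor
  · rintro ⟨x, hx, hc⟩
    exact complete hn hk hx hc
  · intro h
    obtain ⟨v, hv, hc⟩ := sound hn hk h
    refine ⟨v, hv, fun i j hi hj hij => ?_⟩
    rcases Nat.lt_or_gt_of_ne hij with h1 | h1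
    · exact hc i j h1 hj
    · rw [hsymm]
      exact hc j i h1 hi

/-- A yes-instance. -/
def yesI : UInst := (1, 1, [], 0)
/-- A no-instance. -/
def noI : UInst := (1, 1, [(0, 0)], 0)

theorem tardy_yes : Tardy yesI := by
  unfold Tardy
  rw [wTardy_iff]
  refine ⟨fun j => j.elim0, fun j => j.elim0, fun j => j.elim0, fun j => j.elim0, ?_⟩
  rw [Finset.sum_eq_zero (fun (j : Fin (weigh yesI).2.2.1.length) _ => Fin.elim0 j)]
  exact Nat.zero_le _

theorem not_tardy_no : ¬ Tardy noI := by
  unfold Tardy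
  rw [wTardy_iff]
  rintro ⟨σ, S, -, -, h⟩
  have h1 : (weigh noI).2.2.1 = [(0, 0, 1)] := rfl
  have h2 : (weigh noI).2.1 = 1 := rfl
  have h3 : (weigh noI).2.2.2 = 0 := rfl
  rw [h3, Nat.le_zero, Finset.sum_eq_zero_iff] at h
  have h4 := h ⟨0, by simp [h1]⟩ (Finset.mem_univ _)
  simp [h1, h2] at h4

/-! ### Computability -/

section
variable {α : Type} [TEnc α]

theorem poly_di {n k c : α → ℕ} (hn : Poly n) (hk : Poly k) (hc : Poly c) :
    Poly (fun a => di (n a) (k a) (c a)) := by
  unfold di
  fun_prop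

theorem poly_dj {n k c : α → ℕ} (hn : Poly n) (hk : Poly k) (hc : Poly c) :
    Poly (fun a => dj (n a) (k a) (c a)) := by
  unfold dj
  fun_prop

theorem poly_du {n c : α → ℕ} (hn : Poly n) (hc : Poly c) :
    Poly (fun a => du (n a) (c a)) := by
  unfold du
  fun_prop

theorem poly_dw {n c : α → ℕ} (hn : Poly n) (hc : Poly c) :
    Poly (fun a => dw (n a) (c a)) := by
  unfold dw
  fun_prop

theorem upoly_Cn {n k : α → ℕ} (hn : UPoly n) (hk : UPoly k) :
    UPoly (fun a => Cn (n a) (k a)) := by
  unfold Cn Qn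
  exact (((hk.mul hn).add (UPoly.const 1))).mul (((hn.mul hn).mul hk).mul hk)

theorem poly_need {n k : α → ℕ} (hn : UPoly n) (hk : UPoly k) {ed : α → ℕ → ℕ → Bool}
    (hed : Poly (fun p : α × (ℕ × ℕ) => ed p.1 p.2.1 p.2.2)) {c : α → ℕ} (hc : Poly c) :
    Poly (fun a => need (n a) (k a) (ed a) (c a)) := by
  unfold need
  have h1 := poly_di hn.toPoly hk.toPoly hc
  have h2 := poly_dj hn.toPoly hk.toPoly hc
  have h3 := poly_du hn.toPoly hc
  have h4 := poly_dw hn.toPoly hc
  have h5 := (upoly_Cn hn hk).toPoly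
  have h6 : Poly (fun a => ed a (du (n a) (c a)) (dw (n a) (c a))) :=
    hed.comp (Poly.pair Poly.id (Poly.pair h3 h4))
  fun_prop

theorem poly_valid {n k : α → ℕ} (hn : UPoly n) (hk : UPoly k) {ed : α → ℕ → ℕ → Bool}
    (hed : Poly (fun p : α × (ℕ × ℕ) => ed p.1 p.2.1 p.2.2)) {x : α → Lab} (hx : Poly x) :
    Poly (fun a => valid (n a) (k a) (ed a) (x a)) := by
  unfold valid
  have h0 : Poly (fun a => (x a).1) := Poly.fst hx
  have h1 := poly_di hn.toPoly hk.toPoly h0
  have h2 := poly_dj hn.toPoly hk.toPoly h0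
  have h3 := poly_need hn hk hed h0
  have h4 := hk.toPoly
  fun_prop

theorem poly_labs {n k : α → ℕ} (hn : UPoly n) (hk : UPoly k) {ed : α → ℕ → ℕ → Bool}
    (hed : Poly (fun p : α × (ℕ × ℕ) => ed p.1 p.2.1 p.2.2)) :
    Poly (fun a => labs (n a) (k a) (ed a)) := by
  unfold labs
  have h1 : Poly (fun a => List.range (Cn (n a) (k a))) := (upoly_Cn hn hk).range
  have h2 : Poly (fun _ : α => List.range 5) := NPC.Poly.const _
  have h3 : Poly (fun a => List.range (k a + 3)) := (hk.add (UPoly.const 3)).range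
  have h4 := R671.poly_product h1 (R671.poly_product h2 h3)
  refine Poly.filter (p := fun a x => valid (n a) (k a) (ed a) x) h4 ?_
  refine poly_valid (hn.comp (Poly.fst Poly.id)) (hk.comp (Poly.fst Poly.id))
    (ed := fun p : α × Lab => ed p.1) ?_ (Poly.snd Poly.id)
  exact hed.comp (Poly.pair (Poly.fst (Poly.fst Poly.id)) (Poly.snd Poly.id))

theorem poly_lo {n k : α → ℕ} (hn : Poly n) (hk : Poly k) {x : α → Lab} (hx : Poly x) :
    Poly (fun a => lo (n a) (k a) (x a)) := by
  unfold lo
  have h0 : Poly (fun a => (x a).1) := Poly.fst hx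
  have h1 := poly_di hn hk h0
  have h2 := poly_dj hn hk h0
  have h3 := poly_du hn h0
  have h4 := poly_dw hn h0
  fun_prop

theorem poly_hi {n k : α → ℕ} (hn : Poly n) (hk : Poly k) {x : α → Lab} (hx : Poly x) :
    Poly (fun a => hi (n a) (k a) (x a)) := by
  unfold hi
  have h0 : Poly (fun a => (x a).1) := Poly.fst hx
  have h1 := poly_di hn hk h0
  have h2 := poly_dj hn hk h0
  have h3 := poly_du hn h0
  have h4 := poly_dw hn h0
  fun_prop

theorem poly_uinst {n k : α → ℕ} (hn : UPoly n) (hk : UPoly k) {ed : α → ℕ → ℕ → Bool}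
    (hed : Poly (fun p : α × (ℕ × ℕ) => ed p.1 p.2.1 p.2.2)) :
    Poly (fun a => uinst (n a) (k a) (ed a)) := by
  unfold uinst
  have h1 := poly_labs hn hk hed
  have h2 := hn.toPoly
  have h3 := hk.toPoly
  have h4 := (upoly_Cn hn hk).toPoly
  have h5 : Poly (fun p : α × Lab => lo (n p.1) (k p.1) p.2) :=
    poly_lo (h2.comp (Poly.fst Poly.id)) (h3.comp (Poly.fst Poly.id)) (Poly.snd Poly.id)
  have h6 : Poly (fun p : α × Lab => hi (n p.1) (k p.1) p.2) :=
    poly_hi (h2.comp (Poly.fst Poly.id)) (h3.comp (Poly.fst Poly.id)) (Poly.snd Poly.id)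
  fun_prop

end

theorem poly_weigh : Poly weigh := by
  unfold weigh
  fun_prop

/-! ### From Clique -/

/-- An instance of Clique: matrix and size. -/
abbrev Src : Type := List (List Bool) × ℕ

/-- Adjacency. -/
def edg (A : List (List Bool)) (u v : ℕ) : Bool := !(decide (u = v)) && (entry A u v || entry A v u)

theorem edg_symm (A : List (List Bool)) (u v : ℕ) : edg A u v = edg A v u := by
  unfold edg
  rw [Bool.or_comm (entry A u v), decide_eq_decide.2 (eq_comm (a := u) (b := v))]

theorem hasClique_iff (A : List (List Bool)) (k : ℕ) : HasClique (A, k) ↔ Cl A.length k (edg A) := by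
  have hadj : ∀ a b : Fin A.length, (graphOf A).Adj a b ↔ edg A a b = true := by
    intro a b
    unfold graphOf edg
    simp [Fin.ext_iff]
  have h0 : HasClique (A, k) ↔ ¬ (graphOf A).CliqueFree k := by
    unfold HasClique SimpleGraph.CliqueFree
    push Not
    rfl
  rw [h0, SimpleGraph.not_cliqueFree_iff_top_isContained]
  constructor
  · rintro ⟨e⟩
    refine ⟨fun i => if h : i < k then (e ⟨i, h⟩ : ℕ) else 0, ?_, ?_⟩
    · intro i hi
      simp [hi]
    · intro i j hi hj hij
      simp only [hi, hj, dif_pos]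
      rw [← hadj]
      exact e.toHom.map_adj (by simp [Fin.ext_iff, hij])
  · rintro ⟨x, hx, hc⟩
    have hinj : ∀ i < k, ∀ j < k, x i = x j → i = j := by
      intro i hi j hj hxy
      by_contra hij
      have := hc i j hi hj hij
      unfold edg at this
      simp [hxy] at this
    refine ⟨⟨⟨fun i => ⟨x i, hx i i.2⟩, ?_⟩, ?_⟩⟩
    · intro a b h
      rw [hadj]
      simp only [SimpleGraph.completeGraph_eq_top, SimpleGraph.top_adj] at h
      exact hc a b a.2 b.2 (fun h' => h (Fin.ext h'))
    · intro a b hab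
      have h1 : (⟨x a, hx a a.2⟩ : Fin A.length) = ⟨x b, hx b b.2⟩ := hab
      exact Fin.ext (hinj a a.2 b b.2 (by simpa using h1))

/-- The reduction. -/
def red (z : Src) : UInst :=
  if z.2 = 0 then yesI
  else if z.2 ≤ z.1.length then uinst z.1.length (min z.2 z.1.length) (edg z.1) else noI

theorem red_iff (z : Src) : HasClique z ↔ Tardy (red z) := by
  obtain ⟨A, k⟩ := z
  rw [hasClique_iff]
  unfold red
  dsimp only
  split_ifs with h1 h2
  · subst h1
    refine iff_of_true ⟨fun _ => 0, ?_, ?_⟩ tardy_yes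
    · intro i hi; omega
    · intro i j hi; omega
  · rw [min_eq_left h2]
    exact tardy_uinst (by omega) (by omega) (edg_symm A)
  · refine iff_of_false ?_ not_tardy_no
    rintro ⟨x, hx, hc⟩
    apply h2
    have hinj : Set.InjOn x (Finset.range k : Set ℕ) := by
      intro i hi j hj hxy
      rw [Finset.coe_range, Set.mem_Iio] at hi hj
      by_contra hij
      have := hc i j hi hj hij
      unfold edg at this
      simp [hxy] at this
    have h3 := Finset.card_le_card_of_injOn (s := Finset.range k) (t := Finset.range A.length) x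
      (fun i hi => by
        rw [Finset.coe_range, Set.mem_Iio] at hi ⊢
        exact hx i hi) hinj
    rwa [Finset.card_range, Finset.card_range] at h3

theorem poly_red : Poly red := by
  unfold red
  have hn : UPoly (fun z : Src => z.1.length) := UPoly.length (Poly.fst Poly.id)
  have hk : UPoly (fun z : Src => min z.2 z.1.length) :=
    UPoly.of_le (Poly.min (Poly.snd Poly.id) (Poly.length (Poly.fst Poly.id))) hn
      (fun _ => min_le_right _ _)
  have hed : Poly (fun p : Src × (ℕ × ℕ) => edg p.1.1 p.2.1 p.2.2) := by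
    unfold edg entry
    fun_prop
  have h1 := poly_uinst hn hk (ed := fun z : Src => edg z.1) hed
  have h2 : Poly (fun _ : Src => yesI) := NPC.Poly.const _
  have h3 : Poly (fun _ : Src => noI) := NPC.Poly.const _
  fun_prop

theorem red_param (z : Src) : (red z).1 ≤ z.2 + 1 := by
  unfold red
  split_ifs with h1 h2
  · exact Nat.le_add_left _ _
  · exact (min_le_left _ _).trans (Nat.le_succ _)
  · exact Nat.le_add_left _ _

theorem w1Hard_tardy : W1Hard (fun I : UInst => I.1) Tardy :=
  W1Hard.of_clique ⟨red, fun k => k + 1, FptTime.of_poly poly_red, Computable.succ,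
    fun z => ⟨red_iff z, red_param z⟩⟩

theorem w1Hard_wTardy : W1Hard (fun I : WInst => I.1) WTardy :=
  W1Hard.of_clique ⟨fun z => weigh (red z), fun k => k + 1,
    FptTime.of_poly (poly_weigh.comp poly_red), Computable.succ,
    fun z => ⟨red_iff z, red_param z⟩⟩

/-! ### From 3SAT -/

/-- Adjacency in the graph of a formula. -/
def edS (φ : List H634R2.Cl3) (u v : ℕ) : Bool :=
  !(decide (u = v)) && (decide ((u, v) ∈ H634R2.gE φ) || decide ((v, u) ∈ H634R2.gE φ))

theorem sat_iff (φ : List H634R2.Cl3) : SAT3 φ ↔ Cl (3 * φ.length) φ.length (edS φ) := by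
  classical
  rw [← H634R2.hasClique_g]
  constructor
  · rintro ⟨K, hK, hc, he⟩
    let e := (K.orderIsoOfFin hc)
    refine ⟨fun i => if h : i < φ.length then (e ⟨i, h⟩ : ℕ) else 0, ?_, ?_⟩
    · intro i hi
      simp only [hi, dif_pos]
      exact H634R2.mem_gV.1 (hK _ (e ⟨i, hi⟩).2)
    · intro i j hi hj hij
      simp only [hi, hj, dif_pos]
      have hne : (e ⟨i, hi⟩ : ℕ) ≠ e ⟨j, hj⟩ := by
        intro h
        have h1 := e.injective (Subtype.ext h)
        exact hij (by simpa using h1)
      unfold edS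
      have h1 := he _ (e ⟨i, hi⟩).2 _ (e ⟨j, hj⟩).2 hne
      simp only [Bool.and_eq_true, Bool.not_eq_true', decide_eq_false_iff_not, Bool.or_eq_true,
        decide_eq_true_eq]
      exact ⟨hne, h1⟩
  · rintro ⟨x, hx, hc⟩
    have hinj : Set.InjOn x (Finset.range φ.length : Set ℕ) := by
      intro i hi j hj hxy
      rw [Finset.coe_range, Set.mem_Iio] at hi hj
      by_contra hij
      have := hc i j hi hj hij
      unfold edS at this
      simp [hxy] at this
    refine ⟨(Finset.range φ.length).image x, ?_, ?_, ?_⟩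
    · intro v hv
      obtain ⟨i, hi, rfl⟩ := Finset.mem_image.1 hv
      exact H634R2.mem_gV.2 (hx i (Finset.mem_range.1 hi))
    · rw [Finset.card_image_of_injOn hinj, Finset.card_range]
    · intro u hu v hv huv
      obtain ⟨i, hi, rfl⟩ := Finset.mem_image.1 hu
      obtain ⟨j, hj, rfl⟩ := Finset.mem_image.1 hv
      have h1 := hc i j (Finset.mem_range.1 hi) (Finset.mem_range.1 hj) (fun h => huv (by rw [h]))
      unfold edS at h1
      simp only [Bool.and_eq_true, Bool.not_eq_true', decide_eq_false_iff_not, Bool.or_eq_true,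
        decide_eq_true_eq] at h1
      exact h1.2

/-- The reduction from 3SAT. -/
def redS (φ : List H634R2.Cl3) : UInst :=
  if φ.length = 0 then yesI else uinst (3 * φ.length) φ.length (edS φ)

theorem edS_symm (φ : List H634R2.Cl3) (u v : ℕ) : edS φ u v = edS φ v u := by
  unfold edS
  rw [Bool.or_comm (decide ((u, v) ∈ H634R2.gE φ)), decide_eq_decide.2 (eq_comm (a := u) (b := v))]

theorem redS_iff (φ : List H634R2.Cl3) : SAT3 φ ↔ Tardy (redS φ) := by
  rw [sat_iff]
  unfold redS
  split_ifs with h1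
  · rw [h1]
    refine iff_of_true ⟨fun _ => 0, ?_, ?_⟩ tardy_yes
    · intro i hi; omega
    · intro i j hi; omega
  · exact tardy_uinst (by omega) (by omega) (edS_symm φ)

theorem poly_redS : Poly redS := by
  unfold redS
  have hk : UPoly (fun φ : List H634R2.Cl3 => φ.length) := UPoly.length Poly.id
  have hn : UPoly (fun φ : List H634R2.Cl3 => 3 * φ.length) := (UPoly.const 3).mul hk
  have hed : Poly (fun p : List H634R2.Cl3 × (ℕ × ℕ) => edS p.1 p.2.1 p.2.2) := by
    unfold edS
    have h1 : Poly (fun p : List H634R2.Cl3 × (ℕ × ℕ) => H634R2.gE p.1) :=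
      H634R2.gE_poly.comp (Poly.fst Poly.id)
    fun_prop
  have h1 := poly_uinst hn hk (ed := fun φ : List H634R2.Cl3 => edS φ) hed
  have h2 : Poly (fun _ : List H634R2.Cl3 => yesI) := NPC.Poly.const _
  fun_prop

theorem hardI_tardy : HardI Tardy := hardI_SAT3.trans poly_redS redS_iff

theorem hardI_wTardy : HardI WTardy := hardI_tardy.trans poly_weigh fun _ => Iff.rfl

end Pool.Agent.U20.EQ
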