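import Pool.Agent.U20.EQ.Comp2

/-!
# A schedule gives a clique
-/

set_option autoImplicit false

namespace Pool.Agent.U20.EQ

/-- If `k` machines do `T` jobs each before the time `T p`, then one job starts in each round. -/
theorem card_time {ι : Type} {k T p : ℕ} (hp : 0 < p) (hkT : 0 < k * T) (σ : ι → Fin k)
    (S : ι → ℕ) (O : Finset ι) (hO : k * T ≤ O.card) (hlt : ∀ x ∈ O, S x < T * p)
    (hno : ∀ x ∈ O, ∀ y ∈ O, x ≠ y → σ x = σ y → S x + p ≤ S y ∨ S y + p ≤ S x) :
    ∃ J : Fin k → ℕ → ι, (∀ μ a, a < T → J μ a ∈ O ∧ σ (J μ a) = μ ∧ S (J μ a) / p = a) ∧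
      ∀ μ a, a + 1 < T → S (J μ a) + p ≤ S (J μ (a + 1)) := by
  classical
  have hdiv : ∀ x y, S x + p ≤ S y → S x / p + 1 ≤ S y / p := by
    intro x y h
    have h1 := Nat.div_le_div_right (c := p) h
    rwa [Nat.add_div_right _ hp] at h1
  have hinj : Set.InjOn (fun x => (σ x, S x / p)) (O : Set ι) := by
    intro x hx y hy hxy
    by_contra hne
    have h1 : σ x = σ y := congrArg Prod.fst hxy
    have h2 : S x / p = S y / p := congrArg Prod.snd hxy
    rcases hno x hx y hy hne h1 with h3 | h3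
    · have := hdiv _ _ h3; omega
    · have := hdiv _ _ h3; omega
  have himg : O.image (fun x => (σ x, S x / p)) = Finset.univ ×ˢ Finset.range T := by
    refine Finset.eq_of_subset_of_card_le ?_ ?_
    · intro y hy
      obtain ⟨x, hx, rfl⟩ := Finset.mem_image.1 hy
      rw [Finset.mem_product, Finset.mem_range]
      exact ⟨Finset.mem_univ _, (Nat.div_lt_iff_lt_mul hp).2 (hlt x hx)⟩
    · rw [Finset.card_image_of_injOn hinj, Finset.card_product, Finset.card_range,
        Finset.card_univ, Fintype.card_fin]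
      exact hO
  obtain ⟨x0, hx0⟩ : O.Nonempty := by
    rw [← Finset.card_pos]
    omega
  have hex : ∀ (μ : Fin k) (a : ℕ), ∃ x, a < T → x ∈ O ∧ σ x = μ ∧ S x / p = a := by
    intro μ a
    by_cases ha : a < T
    · have h1 : (μ, a) ∈ O.image (fun x => (σ x, S x / p)) := by
        rw [himg, Finset.mem_product, Finset.mem_range]
        exact ⟨Finset.mem_univ _, ha⟩
      obtain ⟨x, hx, h2⟩ := Finset.mem_image.1 h1
      exact ⟨x, fun _ => ⟨hx, congrArg Prod.fst h2, congrArg Prod.snd h2⟩⟩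
    · exact ⟨x0, fun h => absurd h ha⟩
  choose J hJ using hex
  refine ⟨J, hJ, fun μ a ha => ?_⟩
  obtain ⟨h1, h2, h3⟩ := hJ μ a (by omega)
  obtain ⟨h4, h5, h6⟩ := hJ μ (a + 1) ha
  have hne : J μ a ≠ J μ (a + 1) := by
    intro h
    rw [h, h6] at h3
    omega
  rcases hno _ h1 _ h4 hne (h2.trans h5.symm) with h7 | h7
  · exact h7
  · have := hdiv _ _ h7
    omega

theorem reg_eq {n l i v : ℕ} (hv : v < n) (h1 : l * n ≤ i * n + v) (h2 : i * n + v < l * n + n) :
    l = i := by
  rcases Nat.lt_trichotomy l i with h | h | h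
  · have : (l + 1) * n ≤ i * n := Nat.mul_le_mul_right _ h
    have e : (l + 1) * n = l * n + n := by ring
    omega
  · exact h
  · have : (i + 1) * n ≤ l * n := Nat.mul_le_mul_right _ h
    have e : (i + 1) * n = i * n + n := by ring
    omega

variable {n k : ℕ} {ed : ℕ → ℕ → Bool}

theorem lo_ge (hn : 0 < n) {y : Lab} (hy : y ∈ labs n k ed) :
    2 * y.1 * (k * n) ≤ lo n k y ∧ hi n k y ≤ 2 * y.1 * (k * n) + 2 * (k * n) := by
  obtain ⟨c, q, l⟩ := y
  rw [mem_labs, valid_iff] at hy
  dsimp only at hy ⊢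
  obtain ⟨hc, hq, -, hv⟩ := hy
  have e2 : (2 * c + 1) * (k * n) = 2 * c * (k * n) + k * n := by ring
  unfold lo hi
  dsimp only
  rw [e2]
  rcases hv with ⟨h2, h3, -⟩ | ⟨h2, h3, -⟩ | ⟨h2, h3, -⟩
  · have h4 : (l + 1) * n ≤ k * n := Nat.mul_le_mul_right _ h3
    have e : (l + 1) * n = l * n + n := by ring
    split_ifs <;> omega
  · have h5 := need_facts hn h3
    split_ifs <;> omega
  · have h5 := need_facts hn h3
    split_ifs <;> omega

/-- In a block without check, the jobs sit in their regions. -/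
theorem free_label (hn : 0 < n) {y : Lab} (hy : y ∈ labs n k ed) {c b f : ℕ} (hb : b < 2)
    (hc : y.1 = c) (hneed : ¬ need n k ed c = true) (hf : f < k * n)
    (h1 : lo n k y ≤ 2 * c * (k * n) + b * (k * n) + f)
    (h2 : 2 * c * (k * n) + b * (k * n) + f < hi n k y) :
    ∃ l, l < k ∧ y = (c, b, l) ∧ f / n = l := by
  obtain ⟨c', q, l⟩ := y
  dsimp only at hc
  subst hc
  rw [mem_labs, valid_iff] at hy
  dsimp only at hy
  obtain ⟨hc, hq, -, hv⟩ := hy
  rcases hv with ⟨h3, h4, -⟩ | ⟨h3, h4, -⟩ | ⟨h3, h4, -⟩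
  · have h5 : (l + 1) * n ≤ k * n := Nat.mul_le_mul_right _ h4
    have e : (l + 1) * n = l * n + n := by ring
    have key : l * n ≤ f → f < l * n + n → f / n = l := by
      intro h6 h7
      rw [Nat.div_eq_iff hn]
      constructor
      · exact h6
      · omega
    obtain rfl | rfl : b = 0 ∨ b = 1 := by omega
    · obtain rfl | rfl : q = 0 ∨ q = 1 := by omega
      · rw [lo0] at h1
        rw [hi0] at h2
        exact ⟨l, h4, rfl, key (by omega) (by omega)⟩
      · rw [lo1] at h1
        omega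
    · obtain rfl | rfl : q = 0 ∨ q = 1 := by omega
      · rw [hi0] at h2
        omega
      · rw [lo1] at h1
        rw [hi1] at h2
        exact ⟨l, h4, rfl, key (by omega) (by omega)⟩
  · exact absurd h4 hneed
  · exact absurd h4 hneed

/-- The slots of the checked machines with the forbidden phases. -/
theorem check_label (hn : 0 < n) {y : Lab} (hy : y ∈ labs n k ed) {c b : ℕ} (hb : b < 2)
    (hc : y.1 = c) (hneed : need n k ed c = true) {f : ℕ}
    (hf : f = di n k c * n + du n c ∨ f = dj n k c * n + dw n c)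
    (h1 : lo n k y ≤ 2 * c * (k * n) + b * (k * n) + f)
    (h2 : 2 * c * (k * n) + b * (k * n) + f < hi n k y) :
    ∃ l, l < 3 ∧ y = (c, 2, l) := by
  obtain ⟨c', q, l⟩ := y
  dsimp only at hc
  subst hc
  obtain ⟨f1, f2, f3, f4, f5, f6⟩ := need_facts hn hneed
  rw [mem_labs, valid_iff] at hy
  dsimp only at hy
  obtain ⟨hc, hq, -, hv⟩ := hy
  rcases hv with ⟨h3, h4, h5⟩ | ⟨h3, h4, h5⟩ | ⟨h3, h4, h5⟩
  · exfalso
    have h6 : (l + 1) * n ≤ k * n := Nat.mul_le_mul_right _ h4
    have e : (l + 1) * n = l * n + n := by ring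
    have key : l * n ≤ f → f < l * n + n → False := by
      intro h7 h8
      apply h5
      refine ⟨hneed, ?_⟩
      rcases hf with rfl | rfl
      · exact Or.inl (reg_eq f3 h7 h8)
      · exact Or.inr (reg_eq f4 h7 h8)
    obtain rfl | rfl : b = 0 ∨ b = 1 := by omega
    · obtain rfl | rfl : q = 0 ∨ q = 1 := by omega
      · rw [lo0] at h1
        rw [hi0] at h2
        exact key (by omega) (by omega)
      · rw [lo1] at h1
        omega
    · obtain rfl | rfl : q = 0 ∨ q = 1 := by omega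
      · rw [hi0] at h2
        omega
      · rw [lo1] at h1
        rw [hi1] at h2
        exact key (by omega) (by omega)
  · exact ⟨l, h5, by rw [h3]⟩
  · exfalso
    obtain rfl | rfl : q = 3 ∨ q = 4 := by omega
    · rw [lo3] at h1
      rw [hi3] at h2
      obtain rfl | rfl : b = 0 ∨ b = 1 := by omega
      · omega
      · omega
    · rw [lo4] at h1
      rw [hi4] at h2
      obtain rfl | rfl : b = 0 ∨ b = 1 := by omega
      · omega
      · omega

/-- The code of a check. -/
theorem decode (s : ℕ) {i j u w : ℕ} (hi : i < k) (hj : j < k) (hu : u < n) (hw : w < n) :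
    dw n ((((s * k + i) * k + j) * n + u) * n + w) = w ∧
    du n ((((s * k + i) * k + j) * n + u) * n + w) = u ∧
    dj n k ((((s * k + i) * k + j) * n + u) * n + w) = j ∧
    di n k ((((s * k + i) * k + j) * n + u) * n + w) = i ∧
    s * Qn n k ≤ (((s * k + i) * k + j) * n + u) * n + w ∧
    (((s * k + i) * k + j) * n + u) * n + w + 1 ≤ (s + 1) * Qn n k := by
  have hn : 0 < n := by omega
  have hk : 0 < k := by omega
  have m1 : ∀ a b m : ℕ, b < m → (a * m + b) % m = b := by
    intro a b m h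
    rw [Nat.mul_comm, Nat.mul_add_mod, Nat.mod_eq_of_lt h]
  have d1 : ∀ a b m : ℕ, b < m → (a * m + b) / m = a := by
    intro a b m h
    rw [Nat.mul_comm, Nat.mul_add_div (by omega), Nat.div_eq_of_lt h, Nat.add_zero]
  have b1 : ∀ a b m x : ℕ, b < m → a + 1 ≤ x → a * m + b + 1 ≤ x * m := by
    intro a b m x h h'
    have : (a + 1) * m ≤ x * m := Nat.mul_le_mul_right _ h'
    have e : (a + 1) * m = a * m + m := by ring
    omega
  refine ⟨?_, ?_, ?_, ?_, ?_, ?_⟩
  · exact m1 _ _ _ hw
  · unfold du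
    rw [d1 _ _ _ hw, m1 _ _ _ hu]
  · unfold dj
    rw [d1 _ _ _ hw, d1 _ _ _ hu, m1 _ _ _ hj]
  · unfold di
    rw [d1 _ _ _ hw, d1 _ _ _ hu, d1 _ _ _ hj, m1 _ _ _ hi]
  · unfold Qn
    calc s * (n * n * k * k) = s * k * k * n * n := by ring
      _ ≤ (((s * k + i) * k + j) * n + u) * n + w := by
          refine le_trans (Nat.mul_le_mul_right _ ?_) (Nat.le_add_right _ _)
          refine le_trans (Nat.mul_le_mul_right _ ?_) (Nat.le_add_right _ _)
          refine le_trans (Nat.mul_le_mul_right _ ?_) (Nat.le_add_right _ _)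
          exact Nat.le_add_right _ _
  · have h1 := b1 s i k (s + 1) hi le_rfl
    have h2 := b1 _ j k _ hj h1
    have h3 := b1 _ u n _ hu h2
    have h4 := b1 _ w n _ hw h3
    unfold Qn
    calc (((s * k + i) * k + j) * n + u) * n + w + 1 ≤ (s + 1) * k * k * n * n := h4
      _ = (s + 1) * (n * n * k * k) := by ring

end Pool.Agent.U20.EQ
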