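import Pool.Agent.U20.EQ.Sound

/-!
# A schedule gives a clique, continued
-/

set_option autoImplicit false

namespace Pool.Agent.U20.EQ

variable {n k : ℕ} {ed : ℕ → ℕ → Bool}

/-- Phases that are non-decreasing and stay in their regions are constant during a superblock. -/
theorem exists_const (hn : 0 < n) (hk : 0 < k) {Q : ℕ} (f : Fin k → ℕ → ℕ)
    (hmono : ∀ μ a b, a ≤ b → b < 2 * ((k * n + 1) * Q) → f μ a ≤ f μ b) (hQ : 0 < Q)
    (hreg : ∀ μ a, a < 2 * ((k * n + 1) * Q) → f μ a / n = f μ 0 / n) :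
    ∃ s, s < k * n ∧ ∀ μ, f μ (2 * (s * Q)) = f μ (2 * ((s + 1) * Q)) := by
  by_contra hcon
  push Not at hcon
  have hlt : ∀ s, s ≤ k * n → 2 * (s * Q) < 2 * ((k * n + 1) * Q) := by
    intro s hs
    have h1 : (s + 1) * Q ≤ (k * n + 1) * Q := Nat.mul_le_mul_right _ (by omega)
    have e : (s + 1) * Q = s * Q + Q := by ring
    omega
  have hle : ∀ s, 2 * (s * Q) ≤ 2 * ((s + 1) * Q) := by
    intro s
    have e : (s + 1) * Q = s * Q + Q := by ring
    omega
  have hstep : ∀ s, s < k * n →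
      (∑ μ, f μ (2 * (s * Q))) + 1 ≤ ∑ μ, f μ (2 * ((s + 1) * Q)) := by
    intro s hs
    obtain ⟨μ, hμ⟩ := hcon s hs
    refine Finset.sum_lt_sum (fun ν _ => hmono ν _ _ (hle s) (hlt _ hs)) ⟨μ, Finset.mem_univ _, ?_⟩
    exact lt_of_le_of_ne (hmono μ _ _ (hle s) (hlt _ hs)) hμ
  have hall : ∀ s, s ≤ k * n → (∑ μ, f μ 0) + s ≤ ∑ μ, f μ (2 * (s * Q)) := by
    intro s
    induction s with
    | zero => intro _; simp
    | succ s ih =>
      intro hs
      have h1 := ih (by omega)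
      have h2 := hstep s (by omega)
      omega
  have h1 := hall (k * n) le_rfl
  have h2 : ∑ μ, f μ (2 * (k * n * Q)) ≤ ∑ μ : Fin k, (f μ 0 + (n - 1)) := by
    refine Finset.sum_le_sum fun μ _ => ?_
    have h3 := hreg μ _ (hlt _ le_rfl)
    have h4 := Nat.div_add_mod (f μ (2 * (k * n * Q))) n
    have h5 := Nat.div_add_mod (f μ 0) n
    have h6 := Nat.mod_lt (f μ (2 * (k * n * Q))) hn
    rw [h3] at h4
    omega
  rw [Finset.sum_add_distrib, Finset.sum_const, Finset.card_univ, Fintype.card_fin,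
    smul_eq_mul] at h2
  have h3 : k * (n - 1) < k * n := Nat.mul_lt_mul_of_pos_left (by omega) hk
  omega

theorem sound (hn : 0 < n) (hk : 0 < k) (h : NTardy (inst n k ed)) :
    ∃ v : ℕ → ℕ, (∀ i < k, v i < n) ∧ ∀ i j, i < j → j < k → ed (v i) (v j) = true := by
  classical
  have hP : 0 < k * n := Nat.mul_pos hk hn
  have hQ : 0 < Qn n k := by
    unfold Qn
    positivity
  have hC : 0 < Cn n k := by
    unfold Cn
    positivity
  unfold NTardy inst at h
  dsimp only at h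
  obtain ⟨σ, S, hr, hov, hcost⟩ := h
  rw [tardy_sum hP] at hcost
  let O : Finset (Fin (jobs n k ed).length) :=
    Finset.univ.filter fun q => ¬ hi n k (labOf q) ≤ S q
  have hO : k * (2 * Cn n k) ≤ O.card := by
    have h1 := Finset.card_filter_add_card_filter_not
      (s := (Finset.univ : Finset (Fin (jobs n k ed).length)))
      (fun q => hi n k (labOf q) ≤ S q)
    rw [Finset.card_univ, Fintype.card_fin] at h1
    have hjl := jobs_length (n := n) (k := k) (ed := ed)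
    have h2 := length_labs (n := n) (k := k) (ed := ed)
    change _ ≤ (Finset.univ.filter fun q : Fin (jobs n k ed).length =>
      ¬ hi n k (labOf q) ≤ S q).card
    omega
  have hmemO : ∀ q, q ∈ O → S q < hi n k (labOf q) := by
    intro q hq
    exact not_le.1 (Finset.mem_filter.1 hq).2
  have hlo : ∀ q, lo n k (labOf q) ≤ S q := by
    intro q
    have h1 := hr q
    rw [jobs_get] at h1
    exact h1
  have hlt : ∀ q ∈ O, S q < 2 * Cn n k * (k * n) := by
    intro q hq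
    have h1 := hmemO q hq
    have h2 := (lo_ge hn (labOf_mem q)).2
    have h3 : (labOf q).1 < Cn n k := (mem_labs.1 (labOf_mem q)).1
    have h4 : (2 * (labOf q).1 + 2) * (k * n) ≤ 2 * Cn n k * (k * n) :=
      Nat.mul_le_mul_right _ (by omega)
    have e : (2 * (labOf q).1 + 2) * (k * n) = 2 * (labOf q).1 * (k * n) + 2 * (k * n) := by ring
    omega
  obtain ⟨J, hJ1, hJ2⟩ := card_time hP (Nat.mul_pos hk (by omega)) σ S O hO hlt
    (fun x _ y _ hxy hσ => hov x y hxy hσ)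
  -- the phases
  let f : Fin k → ℕ → ℕ := fun μ a => S (J μ a) % (k * n)
  have hf : ∀ μ a, a < 2 * Cn n k → S (J μ a) = a * (k * n) + f μ a := by
    intro μ a ha
    have h1 := Nat.div_add_mod (S (J μ a)) (k * n)
    rw [(hJ1 μ a ha).2.2] at h1
    rw [← h1, Nat.mul_comm a]
  have hfP : ∀ μ a, f μ a < k * n := fun μ a => Nat.mod_lt _ hP
  have hstep : ∀ μ a, a + 1 < 2 * Cn n k → f μ a ≤ f μ (a + 1) := by
    intro μ a ha
    have h1 := hJ2 μ a ha
    rw [hf μ a (by omega), hf μ (a + 1) ha] at h1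
    have e : (a + 1) * (k * n) = a * (k * n) + k * n := by ring
    omega
  have hmono : ∀ μ a b, a ≤ b → b < 2 * Cn n k → f μ a ≤ f μ b := by
    intro μ a b hab
    induction b, hab using Nat.le_induction with
    | base => intro _; exact le_rfl
    | succ b _ ih => intro hb; exact (ih (by omega)).trans (hstep μ b hb)
  -- the labels
  have hJinj : ∀ μ a μ' a', a < 2 * Cn n k → a' < 2 * Cn n k →
      labOf (J μ a) = labOf (J μ' a') → μ = μ' ∧ a = a' := by
    intro μ a μ' a' ha ha' he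
    have h1 := labOf_inj he
    obtain ⟨-, h2, h3⟩ := hJ1 μ a ha
    obtain ⟨-, h4, h5⟩ := hJ1 μ' a' ha'
    rw [h1] at h2 h3
    exact ⟨h2.symm.trans h4, h3.symm.trans h5⟩
  have hblock : ∀ μ c b, b < 2 → c < Cn n k → (labOf (J μ (2 * c + b))).1 = c ∧
      lo n k (labOf (J μ (2 * c + b))) ≤ 2 * c * (k * n) + b * (k * n) + f μ (2 * c + b) ∧
      2 * c * (k * n) + b * (k * n) + f μ (2 * c + b) < hi n k (labOf (J μ (2 * c + b))) := by
    intro μ c b hb hc
    have ha : 2 * c + b < 2 * Cn n k := by omega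
    have h1 := hf μ (2 * c + b) ha
    have h2 := hlo (J μ (2 * c + b))
    have h3 := hmemO _ (hJ1 μ (2 * c + b) ha).1
    have e : (2 * c + b) * (k * n) = 2 * c * (k * n) + b * (k * n) := by ring
    rw [h1, e] at h2 h3
    refine ⟨?_, h2, h3⟩
    obtain ⟨h4, h5⟩ := lo_ge hn (labOf_mem (J μ (2 * c + b)))
    have h6 := hfP μ (2 * c + b)
    generalize (labOf (J μ (2 * c + b))).1 = d at h4 h5 ⊢
    have h7 : b * (k * n) ≤ 1 * (k * n) := Nat.mul_le_mul_right _ (by omega)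
    rcases Nat.lt_trichotomy d c with h8 | h8 | h8
    · exfalso
      have h9 : (2 * d + 2) * (k * n) ≤ 2 * c * (k * n) := Nat.mul_le_mul_right _ (by omega)
      have e' : (2 * d + 2) * (k * n) = 2 * d * (k * n) + 2 * (k * n) := by ring
      omega
    · exact h8
    · exfalso
      have h9 : (2 * c + 2) * (k * n) ≤ 2 * d * (k * n) := Nat.mul_le_mul_right _ (by omega)
      have e' : (2 * c + 2) * (k * n) = 2 * c * (k * n) + 2 * (k * n) := by ring
      omega
  -- the regions in a round without check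
  have hfree : ∀ c b, b < 2 → c < Cn n k → ¬ need n k ed c = true → ∃ r : Fin k → Fin k,
      Function.Injective r ∧ ∀ μ, f μ (2 * c + b) / n = r μ := by
    intro c b hb hc hneed
    have h1 : ∀ μ, ∃ l, l < k ∧ labOf (J μ (2 * c + b)) = (c, b, l) ∧ f μ (2 * c + b) / n = l := by
      intro μ
      obtain ⟨h1, h2, h3⟩ := hblock μ c b hb hc
      exact free_label hn (labOf_mem _) hb h1 hneed (hfP μ _) h2 h3
    choose r hr1 hr2 hr3 using h1
    refine ⟨fun μ => ⟨r μ, hr1 μ⟩, ?_, hr3⟩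
    intro μ μ' hμ
    have h2 : r μ = r μ' := congrArg Fin.val hμ
    exact (hJinj μ (2 * c + b) μ' (2 * c + b) (by omega) (by omega)
      (by rw [hr2 μ, hr2 μ', h2])).1
  obtain ⟨r0, hr0, hr0'⟩ := hfree 0 0 (by norm_num) hC (by
    intro h1
    have h2 := (need_iff.1 h1).1
    simp [di, dj] at h2)
  obtain ⟨r1, hr1, hr1'⟩ := hfree (Cn n k - 1) 1 (by norm_num) (by omega) (by
    intro h1
    have h2 := (need_iff.1 h1).2.2
    omega)
  have eT : 2 * (Cn n k - 1) + 1 = 2 * Cn n k - 1 := by omega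
  rw [eT] at hr1'
  have hle : ∀ μ, (r0 μ : ℕ) ≤ r1 μ := by
    intro μ
    rw [← hr0', ← hr1']
    exact Nat.div_le_div_right (hmono μ _ _ (by omega) (by omega))
  let e0 : Fin k ≃ Fin k := Equiv.ofBijective r0 (Finite.injective_iff_bijective.1 hr0)
  let e1 : Fin k ≃ Fin k := Equiv.ofBijective r1 (Finite.injective_iff_bijective.1 hr1)
  have hsum : ∑ μ, (r0 μ : ℕ) = ∑ μ, (r1 μ : ℕ) := by
    have s0 : ∑ μ, (r0 μ : ℕ) = ∑ μ : Fin k, (μ : ℕ) := e0.sum_comp fun μ : Fin k => (μ : ℕ)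
    have s1 : ∑ μ, (r1 μ : ℕ) = ∑ μ : Fin k, (μ : ℕ) := e1.sum_comp fun μ : Fin k => (μ : ℕ)
    rw [s0, s1]
  have heq : ∀ μ, (r0 μ : ℕ) = r1 μ := by
    intro μ
    exact (Finset.sum_eq_sum_iff_of_le (fun i _ => hle i)).1 hsum μ (Finset.mem_univ _)
  have hreg : ∀ μ a, a < 2 * Cn n k → f μ a / n = r0 μ := by
    intro μ a ha
    have h1 : (r0 μ : ℕ) ≤ f μ a / n := by
      rw [← hr0']
      exact Nat.div_le_div_right (hmono μ _ _ (by omega) ha)
    have h2 : f μ a / n ≤ r1 μ := by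
      rw [← hr1']
      exact Nat.div_le_div_right (hmono μ _ _ (by omega) (by omega))
    have h3 := heq μ
    omega
  obtain ⟨s, hs, hconst⟩ := exists_const hn hk (Q := Qn n k) f hmono hQ (fun μ a ha => by
    rw [hreg μ a ha, hreg μ 0 (by omega)])
  have hs1 : (s + 1) * Qn n k ≤ k * n * Qn n k := Nat.mul_le_mul_right _ hs
  have hCe : Cn n k = k * n * Qn n k + Qn n k := by
    unfold Cn
    ring
  have hsQ : (s + 1) * Qn n k = s * Qn n k + Qn n k := by ring
  -- the clique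
  let M : ℕ → Fin k := fun i => if h : i < k then e0.symm ⟨i, h⟩ else ⟨0, hk⟩
  have hM : ∀ i < k, (r0 (M i) : ℕ) = i := by
    intro i hi
    have h1 : M i = e0.symm ⟨i, hi⟩ := dif_pos hi
    rw [h1]
    exact congrArg Fin.val (e0.apply_symm_apply ⟨i, hi⟩)
  refine ⟨fun i => f (M i) (2 * (s * Qn n k)) % n, fun i _ => Nat.mod_lt _ hn, ?_⟩
  intro i j hij hj
  by_contra hed
  have hi : i < k := by omega
  have hed' : ed (f (M i) (2 * (s * Qn n k)) % n) (f (M j) (2 * (s * Qn n k)) % n) = false := by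
    simpa using hed
  clear hed
  obtain ⟨u, hu⟩ : ∃ u, u = f (M i) (2 * (s * Qn n k)) % n := ⟨_, rfl⟩
  obtain ⟨w, hw⟩ : ∃ w, w = f (M j) (2 * (s * Qn n k)) % n := ⟨_, rfl⟩
  rw [← hu, ← hw] at hed'
  have hun : u < n := by rw [hu]; exact Nat.mod_lt _ hn
  have hwn : w < n := by rw [hw]; exact Nat.mod_lt _ hn
  obtain ⟨c, hc⟩ : ∃ c, c = (((s * k + i) * k + j) * n + u) * n + w := ⟨_, rfl⟩
  obtain ⟨c1, c2, c3, c4, c5, c6⟩ := decode (n := n) (k := k) s hi hj hun hwn
  rw [← hc] at c1 c2 c3 c4 c5 c6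
  have hneed : need n k ed c = true := by
    rw [need_iff, c1, c2, c3, c4]
    exact ⟨hij, hed', by omega⟩
  have hcC : c < Cn n k := by omega
  have hph : ∀ m b, m < k → b < 2 → f (M m) (2 * c + b) =
      m * n + f (M m) (2 * (s * Qn n k)) % n := by
    intro m b hm hb
    have h1 : f (M m) (2 * (s * Qn n k)) ≤ f (M m) (2 * c + b) := hmono _ _ _ (by omega) (by omega)
    have h2 : f (M m) (2 * c + b) ≤ f (M m) (2 * ((s + 1) * Qn n k)) :=
      hmono _ _ _ (by omega) (by omega)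
    rw [← hconst] at h2
    have h3 := hreg (M m) (2 * (s * Qn n k)) (by omega)
    rw [hM m hm] at h3
    have h4 := Nat.div_add_mod (f (M m) (2 * (s * Qn n k))) n
    rw [h3, Nat.mul_comm] at h4
    omega
  have hlabel : ∀ m b, b < 2 → (m = i ∨ m = j) → ∃ l, l < 3 ∧
      labOf (J (M m) (2 * c + b)) = (c, 2, l) := by
    intro m b hb hm
    have hmk : m < k := by omega
    obtain ⟨h1, h2, h3⟩ := hblock (M m) c b hb hcC
    refine check_label hn (labOf_mem _) hb h1 hneed ?_ h2 h3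
    rw [hph m b hmk hb, c1, c2, c3, c4]
    rcases hm with rfl | rfl
    · left
      rw [hu]
    · right
      rw [hw]
  obtain ⟨l1, g1, k1⟩ := hlabel i 0 (by norm_num) (Or.inl rfl)
  obtain ⟨l2, g2, k2⟩ := hlabel i 1 (by norm_num) (Or.inl rfl)
  obtain ⟨l3, g3, k3⟩ := hlabel j 0 (by norm_num) (Or.inr rfl)
  obtain ⟨l4, g4, k4⟩ := hlabel j 1 (by norm_num) (Or.inr rfl)
  have hMij : M i ≠ M j := by
    intro h1
    have h2 := hM i hi
    rw [h1, hM j hj] at h2
    omega
  have b0 : 2 * c + 0 < 2 * Cn n k := by omega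
  have b1 : 2 * c + 1 < 2 * Cn n k := by omega
  have n12 : l1 ≠ l2 := by
    intro h1
    have := (hJinj _ _ _ _ b0 b1 (by rw [k1, k2, h1])).2
    omega
  have n34 : l3 ≠ l4 := by
    intro h1
    have := (hJinj _ _ _ _ b0 b1 (by rw [k3, k4, h1])).2
    omega
  have n13 : l1 ≠ l3 := fun h1 => hMij (hJinj _ _ _ _ b0 b0 (by rw [k1, k3, h1])).1
  have n14 : l1 ≠ l4 := fun h1 => hMij (hJinj _ _ _ _ b0 b1 (by rw [k1, k4, h1])).1
  have n23 : l2 ≠ l3 := fun h1 => hMij (hJinj _ _ _ _ b1 b0 (by rw [k2, k3, h1])).1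
  have n24 : l2 ≠ l4 := fun h1 => hMij (hJinj _ _ _ _ b1 b1 (by rw [k2, k4, h1])).1
  omega

end Pool.Agent.U20.EQ
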